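import Pool.Agent.H37.CNR.Stmts

/-!
# Board cnr (MP_b57703), row WRE
-/

set_option autoImplicit false

namespace Pool.CND

theorem wre_pow {D H : Type} [Group D] [Group H] {g : D ≀ᵣ H} (hg : g.right = 1) (n : ℕ) :
    (g ^ n).right = 1 ∧ ∀ x, (g ^ n).left x = g.left x ^ n := by
  induction n with
  | zero => exact ⟨rfl, fun x => (pow_zero _).symm⟩
  | succ n ih =>
    rw [pow_succ]
    refine ⟨by rw [RegularWreathProduct.mul_right, ih.1, hg, one_mul], fun x => ?_⟩
    rw [RegularWreathProduct.mul_left, Pi.mul_apply, ih.1, inv_one, one_mul, ih.2, pow_succ]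

theorem wre_ker (p : ℕ) (H : Type) [Group H] :
    EA p (RegularWreathProduct.rightHom : (Multiplicative (ZMod p) ≀ᵣ H) →* H).ker := by
  have hr : ∀ g : Multiplicative (ZMod p) ≀ᵣ H,
      g ∈ (RegularWreathProduct.rightHom : (Multiplicative (ZMod p) ≀ᵣ H) →* H).ker →
      g.right = 1 := fun g hg => hg
  refine ⟨fun a ha => ?_, fun a ha b hb => ?_⟩
  · obtain ⟨h1, h2⟩ := wre_pow (hr a ha) p
    refine RegularWreathProduct.ext (funext fun x => ?_) h1
    rw [h2]
    change Multiplicative.ofAdd (p • Multiplicative.toAdd (a.left x)) = 1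
    rw [nsmul_eq_mul, CharP.cast_eq_zero, zero_mul]
    rfl
  · refine RegularWreathProduct.ext (funext fun x => ?_) ?_
    · rw [RegularWreathProduct.mul_left, RegularWreathProduct.mul_left, Pi.mul_apply, Pi.mul_apply,
        hr a ha, hr b hb, inv_one, one_mul, mul_comm]
    · rw [RegularWreathProduct.mul_right, RegularWreathProduct.mul_right, hr a ha, hr b hb]

theorem wre_thm (h1 : S_WRL) (h2 : S_WUB) : S_WRE := by
  intro p k H _ _ _ _ hp hch
  refine ⟨h1 p k H hp hch, fun n hn he => ?_⟩
  have : Fact p.Prime := ⟨hp⟩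
  have : Finite (Multiplicative (ZMod p)) := inferInstanceAs (Finite (ZMod p))
  exact h2 p k (Multiplicative (ZMod p) ≀ᵣ H) H RegularWreathProduct.rightHom n hp hch
    (fun h => ⟨RegularWreathProduct.inl h, rfl⟩) (wre_ker p H) hn he

end Pool.CND
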