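import Pool.Agent.H86.CNR.WRE

/-!
# Board cnr (MP_b57703), row WUV

`U(A) = n` for the kernel part `A` of the stabiliser of a place above `P`.
-/

set_option autoImplicit false

namespace Pool.CND

open Finset

/-- a linear functional vanishing on a subgroup and not on a vector outside of it -/
theorem wuv_dual {p : ℕ} [Fact p.Prime] {X : Type} [Fintype X] (S : AddSubgroup (X → ZMod p))
    (a : X → ZMod p) (ha : a ∉ S) :
    ∃ c : X → ZMod p, (∀ s ∈ S, ∑ u, c u * s u = 0) ∧ ∑ u, c u * a u ≠ 0 := by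
  classical
  obtain ⟨f, hf, hle⟩ := Submodule.exists_le_ker_of_notMem (K := ZMod p)
    (p := AddSubgroup.toZModSubmodule p S) (v := a) ha
  have h1 : ∀ v : X → ZMod p, f v = ∑ u, f (fun j => if u = j then 1 else 0) * v u := by
    intro v
    rw [LinearMap.pi_apply_eq_sum_univ f v]
    exact Finset.sum_congr rfl fun u _ => by rw [smul_eq_mul, mul_comm]
  refine ⟨fun u => f fun j => if u = j then 1 else 0, fun s hs => ?_, ?_⟩
  · rw [← h1]
    exact hle hs
  · rw [← h1]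
    exact hf

/-- order of an Artin-Schreier generator -/
theorem wuv_lb {k L : Type} [Field k] [Field L] [Algebra k L] (P : Place k L) {p : ℕ}
    (hp : 2 ≤ p) {Y z : L} (hY : Y ≠ 0) (hz : Y ^ p - Y = z) {m : ℤ} (hm : m ≤ 0)
    (hge : P.Ge z m) : m ≤ p * P.ord Y := by
  by_cases h : P.ord Y < 0
  · have h1 : P.Ge (-Y) (P.ord (Y ^ p) + 1) := by
      refine P.ge_neg (Or.inr ?_)
      rw [P.ord_pow hY]
      have : (2 : ℤ) ≤ p := by exact_mod_cast hp
      nlinarith
    obtain ⟨h2, h3⟩ := P.ord_add_of_lt (pow_ne_zero p hY) h1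
    rw [← sub_eq_add_neg, hz] at h2 h3
    rw [← P.ord_pow hY, ← h3]
    exact (P.ge_iff h2 m).1 hge
  · have : (0 : ℤ) ≤ p * P.ord Y := mul_nonneg (by positivity) (not_lt.1 h)
    linarith

theorem wuv_as {k L : Type} [Field k] [Field L] [Algebra k L] (P : Place k L) {p : ℕ}
    (hp : 2 ≤ p) {Y z : L} (hz : Y ^ p - Y = z) (hz0 : z ≠ 0)
    (hneg : P.ord z < 0) : Y ≠ 0 ∧ p * P.ord Y = P.ord z := by
  have hY : Y ≠ 0 := by
    rintro rfl
    rw [zero_pow (by omega), sub_zero] at hz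
    exact hz0 hz.symm
  refine ⟨hY, ?_⟩
  have h : P.ord Y < 0 := by
    by_contra h
    rw [not_lt] at h
    have h1 : P.Ge (Y ^ p) 0 := Or.inr (by
      rw [P.ord_pow hY]
      positivity)
    have h2 : P.Ge z 0 := by
      rw [← hz]
      exact P.ge_sub h1 (Or.inr h)
    have := (P.ge_iff hz0 0).1 h2
    omega
  have h1 : P.Ge (-Y) (P.ord (Y ^ p) + 1) := by
    refine P.ge_neg (Or.inr ?_)
    rw [P.ord_pow hY]
    have : (2 : ℤ) ≤ p := by exact_mod_cast hp
    nlinarith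
  obtain ⟨h2, h3⟩ := P.ord_add_of_lt (pow_ne_zero p hY) h1
  rw [← sub_eq_add_neg, hz] at h2 h3
  rw [← P.ord_pow hY, ← h3]

/-- the bound of the sum over a coset -/
theorem wuv_key (hFXP : S_FXP) (hRST : S_RST) (hHER : S_HER) (hLON : S_LON) {p n : ℕ}
    {k L G : Type} [Field k] [Field L] [Algebra k L] [Group G] [Fintype G] (P : Place k L)
    (ρ : G →* (L ≃ₐ[k] L)) (A N : Subgroup G) (a : G) (Y : L) (c : k) (hp : p.Prime)
    (hinj : Function.Injective ρ) (hfix : ∀ g ∈ A, Fixes P (ρ g))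
    (hUM : UM (fun g => P.b (ρ g)) A) (hab : ∀ x ∈ A, ∀ y ∈ A, x * y = y * x) (hNA : N ≤ A)
    (hcard : Nat.card A = p * Nat.card N) (ha : a ∈ A) (haN : a ∉ N) (hYN : ∀ n ∈ N, ρ n Y = Y)
    (hc : c ≠ 0) (hYa : ρ a Y = Y + algebraMap k L c)
    (hY : -((Nat.card A : ℤ) * n) ≤ p * P.ord Y) :
    sm (fun g => P.b (ρ g)) {x | a⁻¹ * x ∈ N} ≤ Nat.card N * n := by
  classical
  have hY0 : Y ≠ 0 := by
    rintro rfl
    rw [map_zero, zero_add] at hYa
    exact hc ((map_eq_zero (algebraMap k L)).1 hYa.symm)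
  obtain ⟨F, hF, Q, hQ⟩ := hFXP k L G P ρ N hinj fun n hn => hfix n (hNA hn)
  obtain ⟨γ, hγ, hQγ⟩ := hRST k L G P ρ N F Q a hF hQ
    (fun n hn => by
      rw [hab a ha n (hNA hn), mul_inv_cancel_right]
      exact hn)
    (fun n hn => by
      rw [hab a⁻¹ (A.inv_mem ha) n (hNA hn), inv_mul_cancel_right]
      exact hn)
    (hfix a ha)
  have hYF : Y ∈ F := (hF Y).2 hYN
  have hγY : γ ⟨Y, hYF⟩ - ⟨Y, hYF⟩ = algebraMap k F c := by
    refine Subtype.ext ?_
    rw [AddSubgroupClass.coe_sub, hγ]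
    change ρ a Y - Y = algebraMap k L c
    rw [hYa]
    ring
  have hγ1 : γ ≠ 1 := by
    rintro rfl
    rw [AlgEquiv.one_apply, sub_self] at hγY
    exact hc ((map_eq_zero (algebraMap k F)).1 hγY.symm)
  have hsum := hHER k L G P ρ N F Q a γ hinj (fun n hn => hfix n (hNA hn)) hF hQ haN (hfix a ha)
    hγ hQγ hγ1
  have hN0 : (0 : ℤ) < Nat.card N := by exact_mod_cast Nat.card_pos
  have hb0 : 0 ≤ Q.b γ := by
    have h1 : 0 ≤ sm (fun g => P.b (ρ g)) {x | a⁻¹ * x ∈ N} := by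
      unfold sm
      refine Finset.sum_nonneg fun x hx => ?_
      have hx' : a⁻¹ * x ∈ N := (Finset.mem_filter.1 hx).2
      have hxA : x ∈ A := by
        have := A.mul_mem ha (hNA hx')
        rwa [mul_inv_cancel_left] at this
      have hx1 : x ≠ 1 := by
        rintro rfl
        rw [mul_one] at hx'
        exact haN (by simpa using N.inv_mem hx')
      exact le_trans zero_le_one (hUM.pos x hxA hx1)
    rw [hsum] at h1
    by_contra h2
    rw [not_le] at h2
    nlinarith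
  have hYF0 : (⟨Y, hYF⟩ : F) ≠ 0 := fun h => hY0 (congrArg Subtype.val h)
  have hl := hLON k F Q γ Q.pi (Q.b γ) hQγ Q.pi_ne Q.ord_pi hb0
    (Or.inr (by unfold Place.b; linarith)) ⟨Y, hYF⟩
  have hle : Q.ord ⟨Y, hYF⟩ + Q.b γ ≤ 0 := by
    rcases hl with h1 | h1
    · rw [hγY] at h1
      have h2 : algebraMap k F c ≠ 0 := fun h => hc ((map_eq_zero (algebraMap k F)).1 h)
      have h3 := (Q.ge_iff h2 _).1 h1
      rwa [Q.ord_const c hc] at h3
    · exact absurd h1 hYF0
  have hQY := hQ ⟨Y, hYF⟩ hYF0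
  have hQn : -(n : ℤ) ≤ Q.ord ⟨Y, hYF⟩ := by
    change (Nat.card N : ℤ) * Q.ord ⟨Y, hYF⟩ = P.ord Y at hQY
    rw [← hQY, hcard] at hY
    push_cast at hY
    have hp0 : (0 : ℤ) < p := by exact_mod_cast hp.pos
    have h1 : (p * Nat.card N : ℤ) * (-(n : ℤ)) ≤ (p * Nat.card N : ℤ) * Q.ord ⟨Y, hYF⟩ := by
      nlinarith
    exact le_of_mul_le_mul_left h1 (mul_pos hp0 hN0)
  rw [hsum]
  have : Q.b γ ≤ n := by linarith
  nlinarith

theorem wuv_thm (hWP1 : S_WP1) (hTOT : S_TOT) (hLON : S_LON) (hHBX : S_HBX) (hUQM : S_UQM)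
    (hELG : S_ELG) (hCMB : S_CMB) (hFXP : S_FXP) (hRST : S_RST) (hHER : S_HER) (hUMW : S_UMW)
    (hWLD : S_WLD) (hHBP : S_HBP) (hTMO : S_TMO) : S_WUV := by
  classical
  intro p k L L' H _ _ _ _ _ _ _ _ ρ ℓ j y ρ' P P' e' n A hp hch hWX hyas hyact hA hℓ hord hpn hordh
  have : Fact p.Prime := ⟨hp⟩
  have : CharP L' p := charP_of_injective_algebraMap (algebraMap k L').injective p
  have hinj' := hWX.inj'
  have he' : e' = Nat.card A := hWP1 k L L' (Multiplicative (ZMod p) ≀ᵣ H) H ρ ρ' j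
    RegularWreathProduct.rightHom P P' e' A hWX hA
  have hfix : ∀ g ∈ A, Fixes P' (ρ' g) := fun g hg => ((hA g).1 hg).2
  have hright : ∀ g ∈ A, g.right = 1 := fun g hg => ((hA g).1 hg).1
  have hEA : EA p A := by
    have h1 := wre_ker p H
    exact ⟨fun a ha => h1.1 a (hright a ha),
      fun a ha b hb => h1.2 a (hright a ha) b (hright b hb)⟩
  -- the wild group
  obtain ⟨W, I, hW, hI, -, -, -⟩ := hWLD p k L' _ P' ρ' hp hch hinj'
  have hAram : ∀ g ∈ A, g ∈ ram P' ρ' 1 := by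
    intro g hg
    refine hTMO p k L' _ P' ρ' hp hch g ⟨hfix g hg, fun u hu hu1 => ?_⟩ ?_
    · by_cases h1 : ρ' g u = u
      · exact Or.inl h1
      · right
        have h2 : P'.Ge (ρ' g u - u) 1 := by
          refine P'.ge_sub (Or.inr ?_) (Or.inr hu1.ge)
          rw [hfix g hg u hu, hu1]
        have h3 := (P'.ge_iff (sub_ne_zero.2 h1) 1).1 h2
        simpa using h3
    · rw [hEA.1 g hg, ← hW]
      exact W.one_mem
  have hAW : A ≤ W := fun g hg => by
    have h1 := hAram g hg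
    rwa [← hW] at h1
  have hUMW' := hUMW k L' _ P' ρ' W hinj' hW
  have hUM : UM (fun g => P'.b (ρ' g)) A :=
    ⟨fun g hg => hUMW'.pos g (hAW hg), fun g hg => hUMW'.inv g (hAW hg),
      fun g hg g' hg' => hUMW'.mul g (hAW hg) g' (hAW hg')⟩
  have hHB := hHBP p k L' _ P' ρ' W hp hch hinj' hW
  have hn1 : 1 ≤ n := Nat.one_le_iff_ne_zero.2 (by rintro rfl; exact hpn (dvd_zero p))
  have hA0 : (0 : ℤ) < Nat.card A := by exact_mod_cast Nat.card_pos
  have hp0 : (0 : ℤ) < p := by exact_mod_cast hp.pos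
  -- action on the `y`
  have hyA : ∀ g ∈ A, ∀ u, ρ' g (y u) =
      y u + (((Multiplicative.toAdd (g.left u)).val : ℕ) : L') := by
    intro g hg u
    rw [hyact, hright g hg, one_mul]
  -- `y 1`
  have hjℓ : j ℓ ≠ 0 := fun h => hℓ ((map_eq_zero j).1 h)
  have hordj : P'.ord (j ℓ) = -((Nat.card A : ℤ) * n) := by
    rw [← hWX.ord ℓ hℓ, hord, he']
    ring
  have hy1 : y 1 ^ p - y 1 = j ℓ := by
    rw [hyas, map_one]
    rfl
  have hneg : P'.ord (j ℓ) < 0 := by
    rw [hordj]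
    have : (1 : ℤ) ≤ n := by exact_mod_cast hn1
    nlinarith
  obtain ⟨hy10, hy1ord⟩ := wuv_as P' hp.two_le hy1 hjℓ hneg
  rw [hordj] at hy1ord
  obtain ⟨a₁, ha₁, ha₁1⟩ : ∃ a ∈ A, Multiplicative.toAdd (a.left 1) ≠ 0 := by
    by_contra h
    push Not at h
    have h1 : ∀ g ∈ A, ρ' g (y 1) = y 1 := by
      intro g hg
      rw [hyA g hg, h g hg, ZMod.val_zero, Nat.cast_zero, add_zero]
    obtain ⟨m, hm⟩ := hTOT k L' _ P' ρ' A hinj' hfix (y 1) hy10 h1
    rw [hm] at hy1ord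
    have h2 : (p : ℤ) * m = -n := by
      have h3 : (Nat.card A : ℤ) * (p * m) = Nat.card A * (-n) := by linarith
      exact mul_left_cancel₀ hA0.ne' h3
    apply hpn
    have h3 : (p : ℤ) ∣ n := ⟨-m, by linarith⟩
    exact_mod_cast h3
  -- the kernel of `left 1`
  let φ : A →* Multiplicative (ZMod p) :=
    { toFun := fun g => (g : Multiplicative (ZMod p) ≀ᵣ H).left 1
      map_one' := rfl
      map_mul' := fun g h => by
        rw [Subgroup.coe_mul, RegularWreathProduct.mul_left, Pi.mul_apply, hright g g.2, inv_one,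
          one_mul] }
  have hφ : ∀ g : A, φ g = (g : Multiplicative (ZMod p) ≀ᵣ H).left 1 := fun g => rfl
  obtain ⟨N₁, hN₁⟩ : ∃ N₁ : Subgroup (Multiplicative (ZMod p) ≀ᵣ H),
      N₁ = φ.ker.map A.subtype := ⟨_, rfl⟩
  have hN₁mem : ∀ g, g ∈ N₁ ↔ g ∈ A ∧ Multiplicative.toAdd (g.left 1) = 0 := by
    intro g
    rw [hN₁, Subgroup.mem_map]
    constructor
    · rintro ⟨x, hx, rfl⟩
      exact ⟨x.2, hx⟩
    · rintro ⟨h1, h2⟩
      exact ⟨⟨g, h1⟩, h2, rfl⟩
  have hcard₁ : Nat.card A = p * Nat.card N₁ := by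
    have h1 : Nat.card φ.range = p := by
      have h2 : Nat.card (Multiplicative (ZMod p)) = p := by
        rw [Nat.card_congr Multiplicative.toAdd, Nat.card_zmod]
      have h3 := Subgroup.card_subgroup_dvd_card φ.range
      rw [h2] at h3
      rcases (Nat.dvd_prime hp).1 h3 with h4 | h4
      · exfalso
        have h5 := Subgroup.eq_bot_of_card_eq _ h4
        have h6 : φ ⟨a₁, ha₁⟩ ∈ φ.range := ⟨_, rfl⟩
        rw [h5, Subgroup.mem_bot] at h6
        exact ha₁1 h6
      · exact h4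
    have h2 : Nat.card N₁ = Nat.card φ.ker := by
      rw [hN₁]
      exact (Nat.card_congr
        (Subgroup.equivMapOfInjective φ.ker A.subtype A.subtype_injective).toEquiv).symm
    have h3 := Subgroup.index_mul_card φ.ker
    rw [Subgroup.index_ker, h1] at h3
    rw [h2, h3]
  have hN₁A : N₁ ≤ A := fun g hg => ((hN₁mem g).1 hg).1
  have hnormal : ∀ N : Subgroup (Multiplicative (ZMod p) ≀ᵣ H), N ≤ A →
      ∀ g ∈ A, ∀ x ∈ N, g * x * g⁻¹ ∈ N := by
    intro N hN g hg x hx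
    rw [hEA.2 g hg x (hN hx), mul_inv_cancel_right]
    exact hx
  have hval : ∀ x : ZMod p, x ≠ 0 → ((x.val : ℕ) : k) ≠ 0 := by
    intro x hx h1
    have h2 := (CharP.cast_eq_zero_iff k p _).1 h1
    exact hx ((ZMod.natCast_zmod_val x).symm.trans ((ZMod.natCast_eq_zero_iff _ _).2 h2))
  have hsum₁ : ∀ g ∈ A, g ∉ N₁ → sm (fun g => P'.b (ρ' g)) {x | g⁻¹ * x ∈ N₁} =
      Nat.card N₁ * (n : ℤ) := by
    intro g hg hgN
    have hg1 : Multiplicative.toAdd (g.left 1) ≠ 0 := fun h => hgN ((hN₁mem g).2 ⟨hg, h⟩)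
    refine hHBX p k L' _ P' ρ' N₁ A g (y 1) (((Multiplicative.toAdd (g.left 1)).val : ℕ) : k) n
      hp hch hinj' hN₁A hAram (hnormal N₁ hN₁A) hg hgN (fun x hx => ?_) hy10
      (hval _ hg1) ?_ ?_ hpn hn1
    · rw [hyA x (hN₁A hx), ((hN₁mem x).1 hx).2, ZMod.val_zero, Nat.cast_zero, add_zero]
    · rw [hyA g hg, map_natCast]
    · rw [hcard₁] at hy1ord
      push_cast at hy1ord ⊢
      have h3 : (p : ℤ) * P'.ord (y 1) = p * (-(n * (Nat.card N₁ : ℤ))) := by
        rw [hy1ord]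
        ring
      exact mul_left_cancel₀ hp0.ne' h3
  -- the last value
  obtain ⟨g₀, hg₀, hg₀max⟩ := Finset.exists_max_image
    (univ.filter fun g : Multiplicative (ZMod p) ≀ᵣ H => g ∈ A ∧ g ≠ 1)
    (fun g => P'.b (ρ' g)) ⟨a₁, Finset.mem_filter.2 ⟨mem_univ _, ha₁, by
      rintro rfl
      exact ha₁1 rfl⟩⟩
  obtain ⟨-, hg₀A, hg₀1⟩ := Finset.mem_filter.1 hg₀
  have hL : IsLst (fun g => P'.b (ρ' g)) A (P'.b (ρ' g₀)) :=
    ⟨⟨g₀, hg₀A, hg₀1, rfl⟩, fun g hg hg1 =>
      hg₀max g (Finset.mem_filter.2 ⟨mem_univ _, hg, hg1⟩)⟩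
  refine ⟨P'.b (ρ' g₀), hL, ?_⟩
  obtain ⟨N, hNA, hg₀N, hcard⟩ := hELG p _ A hp hEA g₀ hg₀A hg₀1
  obtain ⟨B, -, hsB⟩ := hHB N A hNA hAW hcard (hnormal N hNA)
  have hU := (hCMB p _ _ N A B _ hp hUM hNA hcard hsB hL).2 ⟨g₀, hg₀A, hg₀N, rfl⟩
  rw [hU]
  have hN0 : (0 : ℤ) < Nat.card N := by exact_mod_cast Nat.card_pos
  -- the function `Y`
  have hBn : B ≤ n := by
    have hfinH : Finite H := Finite.of_surjective
      (RegularWreathProduct.rightHom : (Multiplicative (ZMod p) ≀ᵣ H) →* H)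
      fun h => ⟨RegularWreathProduct.inl h, rfl⟩
    let _ : Fintype H := Fintype.ofFinite H
    let S : AddSubgroup (H → ZMod p) :=
      { carrier := {v | ∃ g ∈ N, v = fun u => Multiplicative.toAdd (g.left u)}
        zero_mem' := ⟨1, N.one_mem, rfl⟩
        add_mem' := by
          rintro _ _ ⟨g, hg, rfl⟩ ⟨g', hg', rfl⟩
          refine ⟨g * g', N.mul_mem hg hg', ?_⟩
          funext u
          rw [RegularWreathProduct.mul_left, Pi.mul_apply, hright g (hNA hg), inv_one, one_mul,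
            toAdd_mul]
          rfl
        neg_mem' := by
          rintro _ ⟨g, hg, rfl⟩
          refine ⟨g⁻¹, N.inv_mem hg, ?_⟩
          funext u
          rw [RegularWreathProduct.inv_left]
          change _ = Multiplicative.toAdd ((g.left⁻¹) (g.right * u))
          rw [hright g (hNA hg), one_mul]
          rfl }
    obtain ⟨c, hcN, hcg⟩ := wuv_dual S (fun u => Multiplicative.toAdd (g₀.left u)) (by
      rintro ⟨g, hg, h1⟩
      apply hg₀N
      have h2 : g₀ = g := RegularWreathProduct.ext (funext fun u => congrFun h1 u)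
        ((hright g₀ hg₀A).trans (hright g (hNA hg)).symm)
      rw [h2]
      exact hg)
    obtain ⟨Y, hY⟩ : ∃ Y : L', Y = ∑ u, (((c u).val : ℕ) : L') * y u := ⟨_, rfl⟩
    have hYact : ∀ g ∈ A, ρ' g Y = Y +
        ((∑ u, (c u).val * (Multiplicative.toAdd (g.left u)).val : ℕ) : L') := by
      intro g hg
      rw [hY, map_sum, Nat.cast_sum, ← Finset.sum_add_distrib]
      refine Finset.sum_congr rfl fun u _ => ?_
      rw [map_mul, map_natCast, hyA g hg, Nat.cast_mul]
      ring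
    have hcast : ∀ g : Multiplicative (ZMod p) ≀ᵣ H,
        ((∑ u, (c u).val * (Multiplicative.toAdd (g.left u)).val : ℕ) : ZMod p) =
          ∑ u, c u * Multiplicative.toAdd (g.left u) := by
      intro g
      rw [Nat.cast_sum]
      refine Finset.sum_congr rfl fun u _ => ?_
      rw [Nat.cast_mul, ZMod.natCast_zmod_val, ZMod.natCast_zmod_val]
    have hYas : Y ^ p - Y = j (∑ u, (((c u).val : ℕ) : L) * ρ u ℓ) := by
      rw [hY, sum_pow_char, ← Finset.sum_sub_distrib, map_sum]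
      refine Finset.sum_congr rfl fun u _ => ?_
      have h1 : (((c u).val : ℕ) : L') ^ p = (((c u).val : ℕ) : L') := by
        rw [← frobenius_def, map_natCast]
      rw [mul_pow, h1, map_mul, map_natCast, ← hyas]
      ring
    have hz : P'.Ge (j (∑ u, (((c u).val : ℕ) : L) * ρ u ℓ)) (-((Nat.card A : ℤ) * n)) := by
      have h1 : P.Ge (∑ u, (((c u).val : ℕ) : L) * ρ u ℓ) (-(n : ℤ)) := by
        refine P.ge_sum _ _ _ fun u _ => ?_
        have h2 : P.Ge (((c u).val : ℕ) : L) 0 := by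
          have := P.ge_const (((c u).val : ℕ) : k)
          rwa [map_natCast] at this
        have h3 := P.ge_mul h2 (Or.inr (hordh u) : P.Ge (ρ u ℓ) (-(n : ℤ)))
        rwa [zero_add] at h3
      rcases h1 with h1 | h1
      · rw [h1, map_zero]
        exact Or.inl rfl
      · by_cases h2 : ∑ u, (((c u).val : ℕ) : L) * ρ u ℓ = 0
        · rw [h2, map_zero]
          exact Or.inl rfl
        · right
          rw [← hWX.ord _ h2, he']
          nlinarith
    have hc0 : ((∑ u, (c u).val * (Multiplicative.toAdd (g₀.left u)).val : ℕ) : k) ≠ 0 := by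
      intro h1
      have h2 := (CharP.cast_eq_zero_iff k p _).1 h1
      have h3 := (ZMod.natCast_eq_zero_iff _ p).2 h2
      rw [hcast] at h3
      exact hcg h3
    have hYg₀ : ρ' g₀ Y = Y + algebraMap k L'
        ((∑ u, (c u).val * (Multiplicative.toAdd (g₀.left u)).val : ℕ) : k) := by
      rw [map_natCast]
      exact hYact g₀ hg₀A
    have hY0 : Y ≠ 0 := by
      intro h
      rw [h, map_zero, zero_add] at hYg₀
      exact hc0 ((map_eq_zero (algebraMap k L')).1 hYg₀.symm)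
    have hYord := wuv_lb P' hp.two_le hY0 hYas
      (by
        have : (0 : ℤ) ≤ Nat.card A * n := by positivity
        linarith) hz
    have h1 := wuv_key hFXP hRST hHER hLON (p := p) (n := n) P' ρ' A N g₀ Y _ hp hinj' hfix hUM
      hEA.2 hNA hcard hg₀A hg₀N (fun x hx => by
        have h2 : ((∑ u, (c u).val * (Multiplicative.toAdd (x.left u)).val : ℕ) : L') = 0 := by
          rw [CharP.cast_eq_zero_iff L' p, ← ZMod.natCast_eq_zero_iff, hcast]
          exact hcN _ ⟨x, hx, rfl⟩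
        rw [hYact x (hNA hx), h2, add_zero]) hc0 hYg₀ hYord
    rw [hsB g₀ hg₀A hg₀N] at h1
    exact le_of_mul_le_mul_left h1 hN0
  have hnB : (n : ℤ) ≤ B := by
    have ha₁N : a₁ ∉ N₁ := fun h => ha₁1 ((hN₁mem a₁).1 h).2
    have h1 := hUQM _ _ (fun _ => (n : ℤ)) N₁ A _ a₁ hUM hN₁A (hnormal N₁ hN₁A) hsum₁ hL ha₁ ha₁N
    rw [hU] at h1
    have h2 : sm (fun _ : Multiplicative (ZMod p) ≀ᵣ H => (n : ℤ)) {g | g ∈ A ∧ g ∉ N₁} =
        (Nat.card A - Nat.card N₁ : ℤ) * n := by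
      unfold sm
      rw [Finset.sum_const, nsmul_eq_mul]
      congr 1
      have h3 : (univ.filter fun g : Multiplicative (ZMod p) ≀ᵣ H => g ∈ A).card = Nat.card A := by
        rw [Nat.card_eq_fintype_card, Fintype.card_subtype]
      have h4 : (univ.filter fun g : Multiplicative (ZMod p) ≀ᵣ H => g ∈ N₁).card =
          Nat.card N₁ := by
        rw [Nat.card_eq_fintype_card, Fintype.card_subtype]
      have h5 : (univ.filter fun g : Multiplicative (ZMod p) ≀ᵣ H => g ∈ {g | g ∈ A ∧ g ∉ N₁}) =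
          (univ.filter fun g => g ∈ A) \ (univ.filter fun g => g ∈ N₁) := by
        ext g
        simp
      have h6 : (univ.filter fun g : Multiplicative (ZMod p) ≀ᵣ H => g ∈ N₁) ⊆
          univ.filter fun g => g ∈ A := by
        intro g hg
        exact Finset.mem_filter.2 ⟨mem_univ _, hN₁A (Finset.mem_filter.1 hg).2⟩
      have h7 := Finset.card_sdiff_add_card_eq_card h6
      rw [← h3, ← h4, ← h7]
      push_cast
      rw [add_sub_cancel_right]
      congr 2
      ext g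
      simp
    rw [h2] at h1
    have h3 : ((Nat.card A * n : ℤ) : ℚ) ≤ ((Nat.card A * B : ℤ) : ℚ) := by
      calc ((Nat.card A * n : ℤ) : ℚ) = ((Nat.card N₁ * n + (Nat.card A - Nat.card N₁ : ℤ) * n : ℤ) : ℚ) := by
            push_cast
            ring
        _ ≤ _ := by
            refine h1.trans (le_of_eq ?_)
            push_cast
            ring
    have h4 : (Nat.card A * n : ℤ) ≤ Nat.card A * B := by exact_mod_cast h3
    exact le_of_mul_le_mul_left h4 hA0
  have : B = n := le_antisymm hBn hnB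
  rw [this]
  rfl

end Pool.CND
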